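import Pool.Agent.Helper93.TLE.StB7

/-!
# Project TLE, module CORE17: twisted symbols of level `7` are constant
-/

set_option autoImplicit false

namespace Pool.Agent.Helper6.TLE

open Pool.Agent.Helper14.CV (Homog EqC act Tl StFar StFex)
open Pool.Agent.Helper28.WK (Tw evw)
open Pool.Agent.Helper4.TL Pool.Agent.Helper93.TLE

theorem hCore17 : SECore17 := by
  intro hfar G hG _ _ _
  obtain ⟨hom, hsym⟩ := hG
  have neg : ∀ p q : ℤ, (p ≠ 0 ∨ q ≠ 0) → G (-p) (-q) = G p q := by
    intro p q hpq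
    have := hom (-1) p q (by norm_num) hpq
    rw [← this]
    congr 1 <;> ring
  have dif : ∀ a b c d : ℤ, a * d - 7 * b * c = 1 → ∀ p q p' q' : ℤ, (p ≠ 0 ∨ q ≠ 0) →
      (p' ≠ 0 ∨ q' ≠ 0) → G (a * p + b * q) (7 * c * p + d * q) -
        G (a * p' + b * q') (7 * c * p' + d * q') =
      (eps a b (7 * c) d : ℂ) * (G p q - G p' q') := by
    intro a b c d h p q p' q' h1 h2
    have e := (hsym a b (7 * c) d (by linear_combination h) (by simp) (by simp)).diff h1 h2
    unfold act at e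
    rw [e]
    simp only [Pi.smul_apply, zsmul_eq_mul]
    ring
  -- the values at `∞, 0, 1, 1/2, -1, -1/2` agree
  have a1 := dif 2 (-1) 1 (-3) (by norm_num) 0 1 1 3 (by simp) (by simp)
  have a2 := dif 2 (-1) 1 (-3) (by norm_num) 1 3 1 2 (by simp) (by simp)
  have b1 := dif (-5) 3 (-1) 4 (by norm_num) 1 1 2 3 (by simp) (by simp)
  have b2 := dif (-5) 3 (-1) 4 (by norm_num) 2 3 1 2 (by simp) (by simp)
  have t1 := dif 1 1 0 1 (by norm_num) 0 1 1 0 (by simp) (by simp)
  have t2 := dif 1 (-1) 0 1 (by norm_num) 1 2 1 0 (by simp) (by simp)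
  have ea : eps 2 (-1) (7 * 1) (-3) = 1 := by decide
  have eb : eps (-5) 3 (7 * -1) 4 = 1 := by decide
  have et : eps 1 1 (7 * 0) 1 = -1 := by decide
  have et2 : eps 1 (-1) (7 * 0) 1 = -1 := by decide
  rw [ea] at a1 a2
  rw [eb] at b1 b2
  rw [et] at t1
  rw [et2] at t2
  norm_num at a1 a2 b1 b2 t1 t2
  have n13 := neg 1 3 (by simp)
  have n12 := neg 1 2 (by simp)
  have n23 := neg 2 3 (by simp)
  have m12 := neg 1 (-2) (by simp)
  simp only [neg_neg] at m12
  rw [n13, n12] at a1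
  rw [n12] at a2
  rw [n23, n12] at b1
  rw [n12] at b2
  have c02 : G 0 1 = G 1 2 := by linear_combination (-1 / 3 : ℂ) * a1 - (2 / 3 : ℂ) * a2
  have c12 : G 1 2 = G 1 1 := by linear_combination (1 / 3 : ℂ) * b1 + (2 / 3 : ℂ) * b2
  have c0 : G 1 0 = G 0 1 := by linear_combination (-1 / 2 : ℂ) * t1 - (1 / 2 : ℂ) * c02 - (1 / 2 : ℂ) * c12
  have c2 : G 1 0 = G 1 2 := c0.trans c02
  have c3 : G 1 0 = G 1 (-2) := by linear_combination (-1 : ℂ) * t2 + m12 - c2
  have keyf : ∀ a b c d : ℤ, a * d - 7 * b * c = 1 → G a (7 * c) = G b d := by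
    intro a b c d h
    have e := dif a b c d h 1 0 0 1 (by simp) (by simp)
    have hz : (eps a b (7 * c) d : ℂ) * (G 1 0 - G 0 1) = 0 := by
      rw [c0, sub_self, mul_zero]
    rw [hz] at e
    have e1 : G (a * 1 + b * 0) (7 * c * 1 + d * 0) = G a (7 * c) := by congr 1 <;> ring
    have e2 : G (a * 0 + b * 1) (7 * c * 0 + d * 1) = G b d := by congr 1 <;> ring
    rw [e1, e2] at e
    exact sub_eq_zero.1 e
  have keyl : ∀ a b c d : ℤ, a * d - 7 * b * c = 1 →
      G a (7 * c) = G (a + b * 2) (7 * c + d * 2) := by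
    intro a b c d h
    have e := dif a b c d h 1 0 1 2 (by simp) (by simp)
    have hz : (eps a b (7 * c) d : ℂ) * (G 1 0 - G 1 2) = 0 := by
      rw [c2, sub_self, mul_zero]
    rw [hz] at e
    have e1 : G (a * 1 + b * 0) (7 * c * 1 + d * 0) = G a (7 * c) := by congr 1 <;> ring
    have e2 : G (a * 1 + b * 2) (7 * c * 1 + d * 2) = G (a + b * 2) (7 * c + d * 2) := by
      congr 1 <;> ring
    rw [e1, e2] at e
    exact sub_eq_zero.1 e
  have keyr : ∀ a b c d : ℤ, a * d - 7 * b * c = 1 →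
      G a (7 * c) = G (a - b * 2) (7 * c - d * 2) := by
    intro a b c d h
    have e := dif a b c d h 1 0 1 (-2) (by simp) (by simp)
    have hz : (eps a b (7 * c) d : ℂ) * (G 1 0 - G 1 (-2)) = 0 := by
      rw [c3, sub_self, mul_zero]
    rw [hz] at e
    have e1 : G (a * 1 + b * 0) (7 * c * 1 + d * 0) = G a (7 * c) := by congr 1 <;> ring
    have e2 : G (a * 1 + b * (-2)) (7 * c * 1 + d * (-2)) = G (a - b * 2) (7 * c - d * 2) := by
      congr 1 <;> ring
    rw [e1, e2] at e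
    exact sub_eq_zero.1 e
  apply hfar ℂ inferInstance G hom
  intro a b c d h
  have hac : a ≠ 0 ∨ c ≠ 0 := by
    by_contra hc
    push Not at hc
    rw [hc.1, hc.2] at h
    norm_num at h
  have hcases : (7 : ℤ) ∣ c ∨ (7 : ℤ) ∣ d ∨ (7 : ℤ) ∣ c + d ∨ (7 : ℤ) ∣ c - d ∨
      (7 : ℤ) ∣ c - 2 * d ∨ (7 : ℤ) ∣ 2 * c - d ∨ (7 : ℤ) ∣ c + 2 * d ∨ (7 : ℤ) ∣ 2 * c + d := by
    have h7 : c % 7 = 0 ∨ c % 7 = 1 ∨ c % 7 = 2 ∨ c % 7 = 3 ∨ c % 7 = 4 ∨ c % 7 = 5 ∨
        c % 7 = 6 := by omega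
    have h8 : d % 7 = 0 ∨ d % 7 = 1 ∨ d % 7 = 2 ∨ d % 7 = 3 ∨ d % 7 = 4 ∨ d % 7 = 5 ∨
        d % 7 = 6 := by omega
    rcases h7 with h7 | h7 | h7 | h7 | h7 | h7 | h7 <;>
      rcases h8 with h8 | h8 | h8 | h8 | h8 | h8 | h8 <;> omega
  rcases hcases with hc | hc | hc | hc | hc | hc | hc | hc
  · obtain ⟨c', rfl⟩ := hc
    exact keyf a b c' d (by linear_combination h)
  · obtain ⟨d', rfl⟩ := hc
    have := keyf b (-a) d' (-c) (by linear_combination h)
    rw [this, neg a c hac]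
  · obtain ⟨e', he'⟩ := hc
    have k1 := keyf (a + b) b e' d (by linear_combination h + b * he')
    have k2 := keyf (a + b) (-a) e' (-c) (by linear_combination h - a * he')
    rw [← k1, k2, neg a c hac]
  · obtain ⟨e', he'⟩ := hc
    have k1 := keyf (a - b) b e' d (by linear_combination h + b * he')
    have k2 := keyf (a - b) a e' c (by linear_combination h + a * he')
    rw [← k1, k2]
  · obtain ⟨e', he'⟩ := hc
    have k1 := keyf (a - 2 * b) b e' d (by linear_combination h + b * he')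
    have k2 := keyl (a - 2 * b) b e' d (by linear_combination h + b * he')
    have e1 : G (a - 2 * b + b * 2) (7 * e' + d * 2) = G a c := by
      rw [← he']
      congr 1 <;> ring
    rw [← k1, k2, e1]
  · obtain ⟨e', he'⟩ := hc
    have k1 := keyf (2 * a - b) a e' c (by linear_combination h + a * he')
    have k2 := keyl (2 * a - b) (b - a) e' (d - c) (by linear_combination h + (b - a) * he')
    have e1 : G (2 * a - b + (b - a) * 2) (7 * e' + (d - c) * 2) = G b d := by
      rw [← he']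
      congr 1 <;> ring
    rw [← k1, k2, e1]
  · obtain ⟨e', he'⟩ := hc
    have k1 := keyf (a + 2 * b) b e' d (by linear_combination h + b * he')
    have k2 := keyr (a + 2 * b) b e' d (by linear_combination h + b * he')
    have e1 : G (a + 2 * b - b * 2) (7 * e' - d * 2) = G a c := by
      rw [← he']
      congr 1 <;> ring
    rw [← k1, k2, e1]
  · obtain ⟨e', he'⟩ := hc
    have k1 := keyf (2 * a + b) (-a) e' (-c) (by linear_combination h - a * he')
    have k2 := keyr (2 * a + b) (a + b) e' (c + d) (by linear_combination h + (a + b) * he')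
    have hbd : b ≠ 0 ∨ d ≠ 0 := by
      by_contra hc
      push Not at hc
      rw [hc.1, hc.2] at h
      norm_num at h
    have e1 : G (2 * a + b - (a + b) * 2) (7 * e' - (c + d) * 2) = G b d := by
      rw [← he', ← neg b d hbd]
      congr 1 <;> ring
    have e2 := neg a c hac
    rw [← e2, ← k1, k2, e1]

end Pool.Agent.Helper6.TLE
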