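import Pool.Agent.Helper93.TLE.StB

/-!
# Project TLE, module B3a: decomposition of a twisted symbol of level `p^n`
-/

set_option autoImplicit false

namespace Pool.Agent.Helper6.TLE

open Pool.Agent.Helper14.CV (Homog EqC act Tl StFar StFex act_add act_sub act_smul act_neg)
open Pool.Agent.Helper14.W5 (Tw_add Tw_smul)
open Pool.Agent.Helper28.WK (Tw evw)
open Pool.Agent.Helper4.TL Pool.Agent.Helper93.TLE

/-- Linear operators on functions which respect equality up to constants. -/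
private structure Op (L : (ℤ → ℤ → ℂ) → (ℤ → ℤ → ℂ)) : Prop where
  add : ∀ G H, L (G + H) = L G + L H
  sub : ∀ G H, L (G - H) = L G - L H
  smul : ∀ (s : ℂ) (G), L (s • G) = s • L G
  cong : ∀ {G H}, EqC G H → EqC (L G) (L H)

private lemma Op.zero {L : (ℤ → ℤ → ℂ) → (ℤ → ℤ → ℂ)} (h : Op L) {G : ℤ → ℤ → ℂ}
    (hG : EqC G 0) : EqC (L G) 0 := by
  have h0 : L 0 = 0 := by
    have := h.smul 0 0
    rwa [zero_smul, zero_smul] at this
  have := h.cong hG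
  rwa [h0] at this

private lemma EqC_sum (s : Finset ℕ) (F F' : ℕ → ℤ → ℤ → ℂ)
    (h : ∀ i ∈ s, EqC (F i) (F' i)) : EqC (∑ i ∈ s, F i) (∑ i ∈ s, F' i) := by
  classical
  induction s using Finset.induction_on with
  | empty => simp only [Finset.sum_empty]; exact EqC.refl _
  | insert a s ha ih =>
    rw [Finset.sum_insert ha, Finset.sum_insert ha]
    exact (h a (Finset.mem_insert_self a s)).add
      (ih fun i hi => h i (Finset.mem_insert_of_mem hi))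

private lemma op_act {a b c d : ℤ} (hd : a * d - b * c ≠ 0) : Op (act a b c d) where
  add G H := act_add a b c d G H
  sub G H := act_sub a b c d G H
  smul s G := act_smul s a b c d G
  cong h := h.act hd

private lemma op_sum (s : Finset ℕ) (L : ℕ → (ℤ → ℤ → ℂ) → (ℤ → ℤ → ℂ)) (h : ∀ i ∈ s, Op (L i)) :
    Op (fun G => ∑ i ∈ s, L i G) where
  add G H := by
    rw [← Finset.sum_add_distrib]
    exact Finset.sum_congr rfl fun i hi => (h i hi).add G H
  sub G H := by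
    rw [← Finset.sum_sub_distrib]
    exact Finset.sum_congr rfl fun i hi => (h i hi).sub G H
  smul x G := by
    rw [Finset.smul_sum]
    exact Finset.sum_congr rfl fun i hi => (h i hi).smul x G
  cong hGH := EqC_sum s _ _ fun i hi => (h i hi).cong hGH

private lemma op_tSE (p : ℕ) (hp : p.Prime) : Op (tSE p) := by
  have h : Op (fun G => ∑ i ∈ Finset.range p, act (p : ℤ) (2 * (i : ℤ)) 0 (p : ℤ) G) := by
    refine op_sum (Finset.range p) (fun i => act (p : ℤ) (2 * (i : ℤ)) 0 (p : ℤ)) fun i _ => op_act ?_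
    have : (p : ℤ) ≠ 0 := by exact_mod_cast hp.ne_zero
    rw [mul_zero, sub_zero]
    exact mul_ne_zero this this
  exact h

private lemma op_sSE (p n : ℕ) : Op (sSE p n) := by
  have h : Op (fun G => ∑ i ∈ Finset.range p,
      act (1 : ℤ) (0 : ℤ) (2 * (i : ℤ) * (p : ℤ) ^ (n - 1)) (1 : ℤ) G) := by
    refine op_sum (Finset.range p)
      (fun i => act (1 : ℤ) (0 : ℤ) (2 * (i : ℤ) * (p : ℤ) ^ (n - 1)) (1 : ℤ)) fun i _ => op_act ?_
    norm_num
  exact h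

/-- The average `A` of `G` satisfies `L (G - A) ≈ 0`. -/
private lemma proj {L : (ℤ → ℤ → ℂ) → (ℤ → ℤ → ℂ)} (h : Op L) {c : ℂ} (hc : c ≠ 0)
    {G : ℤ → ℤ → ℂ} (hL : EqC (L (L G)) (c • L G)) : EqC (L (G - (1 / c) • L G)) 0 := by
  rw [h.sub, h.smul]
  have h1 := (EqC.refl (L G)).sub (hL.smul (1 / c))
  rwa [smul_smul, one_div_mul_cancel hc, one_smul, sub_self] at h1

/-- If `M` commutes with `L` (or intertwines it with `L'`), it preserves vanishing. -/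
private lemma vanish {L L' M : (ℤ → ℤ → ℂ) → (ℤ → ℤ → ℂ)} (hM : Op M) {G : ℤ → ℤ → ℂ}
    (hc : EqC (L (M G)) (M (L' G))) (hG : EqC (L' G) 0) : EqC (L (M G)) 0 :=
  hc.trans (hM.zero hG)

private lemma van_sub {L : (ℤ → ℤ → ℂ) → (ℤ → ℤ → ℂ)} (h : Op L) (s : ℂ) {G H : ℤ → ℤ → ℂ}
    (hG : EqC (L G) 0) (hH : EqC (L H) 0) : EqC (L (s • (G - H))) 0 := by
  rw [h.smul, h.sub]
  have := (hG.sub hH).smul s
  rwa [sub_zero, smul_zero] at this

private lemma van_add {L : (ℤ → ℤ → ℂ) → (ℤ → ℤ → ℂ)} (h : Op L) (s : ℂ) {G H : ℤ → ℤ → ℂ}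
    (hG : EqC (L G) 0) (hH : EqC (L H) 0) : EqC (L (s • (G + H))) 0 := by
  rw [h.smul, h.add]
  have := (hG.add hH).smul s
  rwa [add_zero, smul_zero] at this

private lemma SymE_sub {p r s : ℕ} {G H : ℤ → ℤ → ℂ} (h : SymE p r s G) (h' : SymE p r s H) :
    SymE p r s (G - H) := by
  rw [sub_eq_add_neg]
  exact SymE.add h (SymE.neg h')

private lemma evw_add (ls : List ℕ) (G H : ℤ → ℤ → ℂ) :
    evw 2 ls (G + H) = evw 2 ls G + evw 2 ls H := by
  simp only [evw, Tw_add, Pi.add_apply]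
  ring

private lemma evw_smul (s : ℂ) (ls : List ℕ) (G : ℤ → ℤ → ℂ) :
    evw 2 ls (s • G) = s * evw 2 ls G := by
  simp only [evw, Tw_smul, Pi.smul_apply, smul_eq_mul]
  ring

private lemma evw_sub (ls : List ℕ) (G H : ℤ → ℤ → ℂ) :
    evw 2 ls (G - H) = evw 2 ls G - evw 2 ls H := by
  have e : G - H = G + (-1 : ℂ) • H := by
    rw [neg_one_smul, sub_eq_add_neg]
  rw [e, evw_add, evw_smul]
  ring

theorem hB3a (ha : SEAvg) (hm : SEMon) (hc : SECom) (he : SEEv) : SEB3a := by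
  intro p hp hp2 n G hn hG
  have hn2 : 2 ≤ n := by omega
  have hp0 : (p : ℤ) ≠ 0 := by exact_mod_cast hp.ne_zero
  have hpC : (p : ℂ) ≠ 0 := by exact_mod_cast hp.ne_zero
  have hpow : (p : ℤ) ^ n ≠ 0 := pow_ne_zero _ hp0
  have oT := op_tSE p hp
  have oS := op_sSE p n
  have oW : Op (act 0 (-1) ((p : ℤ) ^ n) 0) := op_act (by
    intro h
    apply hpow
    linarith)
  have ox : Op (act (-1) 0 0 1) := op_act (by norm_num)
  set W : (ℤ → ℤ → ℂ) → (ℤ → ℤ → ℂ) := act 0 (-1) ((p : ℤ) ^ n) 0 with hW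
  set x : (ℤ → ℤ → ℂ) → (ℤ → ℤ → ℂ) := act (-1) 0 0 1 with hx
  -- the symbols
  set A : ℤ → ℤ → ℂ := (1 / (p : ℂ)) • tSE p G with hA
  set B : ℤ → ℤ → ℂ := G - A with hB
  set C : ℤ → ℤ → ℂ := (1 / (p : ℂ)) • sSE p n B with hC
  set E : ℤ → ℤ → ℂ := B - C with hE
  set F : ℤ → ℤ → ℂ := (1 / 2 : ℂ) • (E - W E) with hF
  set G1 : ℤ → ℤ → ℂ := (1 / 2 : ℂ) • (F + x F) with hG1
  have sA : SymE p 0 n A := SymE.smul _ (ha p hp hp2 n G hn2 hG).1
  have sB : SymE p 0 n B := SymE_sub hG sA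
  have lC : SymE p 0 (n - 1) C := SymE.smul _ (ha p hp hp2 n B hn2 sB).2.1
  have sC : SymE p 0 n C := hm p ℂ _ (n - 1) n C (Nat.sub_le n 1) lC
  have sE : SymE p 0 n E := SymE_sub sB sC
  have sF : SymE p 0 n F := SymE.smul _ (SymE_sub sE (ha p hp hp2 n E hn2 sE).2.2.2.1)
  have sG1 : SymE p 0 n G1 := SymE.smul _ (SymE.add sF (ha p hp hp2 n F hn2 sF).2.2.2.2)
  -- averages
  have tB : EqC (tSE p B) 0 := proj oT hpC (hc p hp hp2 n G hn hG).1
  have sEE : EqC (sSE p n E) 0 := proj oS hpC (hc p hp hp2 n B hn sB).2.1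
  have tC : EqC (tSE p C) 0 := by
    rw [hC, oT.smul]
    have h1 := (vanish oS (hc p hp hp2 n B hn sB).2.2.1 tB).smul (1 / (p : ℂ))
    rwa [smul_zero] at h1
  have tE : EqC (tSE p E) 0 := by
    rw [hE, oT.sub]
    have := tB.sub tC
    rwa [sub_zero] at this
  have tF : EqC (tSE p F) 0 :=
    van_sub oT _ tE (vanish oW (hc p hp hp2 n E hn sE).2.2.2.1 sEE)
  have sFF : EqC (sSE p n F) 0 :=
    van_sub oS _ sEE (vanish oW (hc p hp hp2 n E hn sE).2.2.2.2.1 tE)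
  have tG1 : EqC (tSE p G1) 0 :=
    van_add oT _ tF (vanish ox (hc p hp hp2 n F hn sF).2.2.2.2.2.1 tF)
  have sG1' : EqC (sSE p n G1) 0 :=
    van_add oS _ sFF (vanish ox (hc p hp hp2 n F hn sF).2.2.2.2.2.2.1 sFF)
  have WF : EqC (W F) (-F) := by
    have h1 : EqC (W (W E)) E := (hc p hp hp2 n E hn sE).2.2.2.2.2.2.2.1
    rw [hF, oW.smul, oW.sub, ← smul_neg, neg_sub]
    exact ((EqC.refl (W E)).sub h1).smul (1 / 2 : ℂ)
  have xG1 : EqC (x G1) G1 := by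
    have h1 : EqC (x (x F)) F := (hc p hp hp2 n F hn sF).2.2.2.2.2.2.2.2.1
    rw [hG1, ox.smul, ox.add, add_comm F (x F)]
    exact ((EqC.refl (x F)).add h1).smul (1 / 2 : ℂ)
  have WG1 : EqC (W G1) (-G1) := by
    have h1 : EqC (W (x F)) (x (W F)) := (hc p hp hp2 n F hn sF).2.2.2.2.2.2.2.2.2
    have h2 : EqC (W (x F)) (-(x F)) := h1.trans (ox.cong WF)
    rw [hG1, oW.smul, oW.add, ← smul_neg, neg_add]
    exact (WF.add h2).smul (1 / 2 : ℂ)
  have lA : SymE p 0 (n - 1) (W A) := SymE.smul (1 / (p : ℂ)) (ha p hp hp2 n G hn2 hG).2.2.1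
  refine ⟨C - W A, G1, SymE_sub lC lA, ⟨sG1, tG1, sG1', WG1, xG1⟩, fun ls hls => ?_⟩
  have eA : evw 2 ls (W A) = -evw 2 ls A := (he p hp hp2 ℂ _ n A sA ls hls).1
  have eE : evw 2 ls (W E) = -evw 2 ls E := (he p hp hp2 ℂ _ n E sE ls hls).1
  have eF : evw 2 ls (x F) = evw 2 ls F := (he p hp hp2 ℂ _ n F sF ls hls).2
  have e2 : evw 2 ls B = evw 2 ls G - evw 2 ls A := evw_sub ls G A
  have e4 : evw 2 ls E = evw 2 ls B - evw 2 ls C := evw_sub ls B C
  have e5 : evw 2 ls F = (1 / 2 : ℂ) * (evw 2 ls E - evw 2 ls (W E)) := by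
    rw [hF, evw_smul, evw_sub]
  have e6 : evw 2 ls G1 = (1 / 2 : ℂ) * (evw 2 ls F + evw 2 ls (x F)) := by
    rw [hG1, evw_smul, evw_add]
  rw [eF] at e6
  rw [eE] at e5
  rw [evw_sub, eA]
  linear_combination -e2 - e4 - e5 - e6

end Pool.Agent.Helper6.TLE
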